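import Pool.Agent.H92.MaxVar

set_option autoImplicit false
open MeasureTheory
open scoped NNReal

namespace Pool.Agent.Results.MP_0067de_an.Unbounded

/-- the maximal function `sup_{t > 0} (φ_t * |f|)(x)` with `φ_t(y) = t⁻¹ φ(y / t)` -/
noncomputable def maxFn (φ f : ℝ → ℝ) (x : ℝ) : ℝ :=
  ⨆ t : Set.Ioi (0:ℝ), ∫ y, (t:ℝ)⁻¹ * φ (y / t) * |f (x - y)|

theorem result : ∃ φ : ℝ → ℝ, (∀ x, 0 ≤ φ x) ∧ Integrable φ ∧ ∫ x, φ x = 1 ∧ (∀ x, φ (-x) = φ x) ∧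
    ∀ C : ℝ≥0, ∃ f : ℝ → ℝ, BoundedVariationOn f Set.univ ∧
      C * eVariationOn f Set.univ < eVariationOn (maxFn φ f) Set.univ :=
  ⟨Pool.Agent.H92.MaxVar.ψ, fun x => div_nonneg (add_nonneg (Pool.Agent.H92.MaxVar.φ_nonneg _)
      (Pool.Agent.H92.MaxVar.φ_nonneg _)) zero_le_two, Pool.Agent.H92.MaxVar.ψ_integrable,
    Pool.Agent.H92.MaxVar.ψ_int, fun x => by simp [Pool.Agent.H92.MaxVar.ψ, add_comm],
    Pool.Agent.H92.MaxVar.main⟩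

end Pool.Agent.Results.MP_0067de_an.Unbounded
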